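import Pool.Agent.Run7.h925.LB.RGr

set_option autoImplicit false

/-!
# r-graphs without large bricks with two pentagons joined by three disjoint edges

`MGraph r ends`: loopless `r`-regular multigraph on `Fin n` (edges `Fin m`) with at least `r` edges
leaving every odd vertex set.  `MCover 1 r ends`: `1 * r` perfect matchings covering every edge exactly
once.  `PetMinor`: the Petersen graph is a minor.  `Brick H`: deleting any two vertices of `H` leaves a
connected graph with a perfect matching.  `OddMinor H G`: `H` is a minor of `G`, with branch sets that
have an odd number of vertices.  `LinkedMinor G`: some graph obtained from two disjoint pentagons by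
adding three disjoint edges between them is a minor of `G`.

Proof.  A brick is 3-connected, so by Menger's theorem any two disjoint circuits are joined by three
disjoint paths.  If both circuits have at least five vertices, each of them is divided into five arcs
such that the ends of the three paths are in different arcs, and contracting the arcs and the paths
gives the minor.  Hence in a brick without `LinkedMinor` any two circuits of length at least five meet,
and such bricks are settled by the starting files.
-/

namespace Pool.Agent.Results.MP_fe5cb4_co.LinkedPentagons

open H76FC H76TX H76TY H76TW Pool.Agent.W315.LB Pool.Agent.TH583.HB Pool.Agent.TH100.LV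

/-- Some graph obtained from two disjoint pentagons by adding three disjoint edges between them is a
minor of `G`: the branch sets `A 0, ..., A 4` and `B 0, ..., B 4` are connected and pairwise disjoint,
cyclically consecutive ones are joined by an edge, and `A (i k)` is joined to `B (j k)` by an edge for
`k = 0, 1, 2`, where `i` and `j` are injective. -/
def LinkedMinor {V : Type} (G : SimpleGraph V) : Prop :=
  ∃ (A B : Fin 5 → Set V) (i j : Fin 3 → Fin 5), Function.Injective i ∧ Function.Injective j ∧
    (∀ s, (G.induce (A s)).Connected) ∧ (∀ s, (G.induce (B s)).Connected) ∧
    (∀ s t, s ≠ t → Disjoint (A s) (A t)) ∧ (∀ s t, s ≠ t → Disjoint (B s) (B t)) ∧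
    (∀ s t, Disjoint (A s) (B t)) ∧
    (∀ s, ∃ x ∈ A s, ∃ y ∈ A (s + 1), G.Adj x y) ∧
    (∀ s, ∃ x ∈ B s, ∃ y ∈ B (s + 1), G.Adj x y) ∧
    ∀ k, ∃ x ∈ A (i k), ∃ y ∈ B (j k), G.Adj x y

/-- Let `G` be an `r`-graph without Petersen minor (for instance a planar one) such that no brick with
at least 14 vertices which is a minor of `G` with odd branch sets has a minor consisting of two disjoint
pentagons and three disjoint edges between them.  Then `G` has `r` perfect matchings covering every edge
exactly once. -/
theorem result {r n m : ℕ} (ends : Fin m → Sym2 (Fin n)) (hG : MGraph r ends)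
    (hP : ¬ PetMinor (SimpleGraph.fromEdgeSet (Set.range ends)))
    (hB : ∀ (W : Type) [Fintype W] (H : SimpleGraph W), Brick H → 14 ≤ Fintype.card W →
        OddMinor H (SimpleGraph.fromEdgeSet (Set.range ends)) → ¬ LinkedMinor H) :
    MCover 1 r ends := by
  refine Run7.h925.LB.mcover_linked ends hG (fun W _ H hH ho => ?_)
  by_cases hc : Fintype.card W ≤ 13
  · exact Or.inr (Or.inl ⟨hc, fun h' => hP (pet_oddMinor H _ ho h')⟩)
  · exact Or.inl (hB W H hH (by omega) ho)

end Pool.Agent.Results.MP_fe5cb4_co.LinkedPentagons
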