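import Pool.Agent.Run7.h818.HB.RG

/-!
# r-graphs without large linked pairs have a (1, r)-PM

`MGraph r ends`: loopless `r`-regular multigraph on `Fin n` (edges `Fin m`) with at least `r` edges
leaving every odd vertex set.  `MCover 1 r ends`: `1 * r` perfect matchings covering every edge exactly
once.  `PetMinor`: the Petersen graph is a minor.

* `Linked ends S T`: `S`, `T` are disjoint sets of vertices of odd size, both induce connected subgraphs
  with circuits of length at least five, and five pairwise disjoint edges join `S` and `T`.

Proof: `Pool/Agent/Run7/h818/HB`.  In a smallest counterexample on a brick every perfect matching `M`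
leaves a set `Y` with fewer than `r - 1` edges of `G - M` leaving it; choose `Y` with the fewest edges
of `G` leaving it.  Then `Y` and its complement are connected, both contain odd cycles of length at
least five, and `M` has at least five edges leaving `Y`.
-/

set_option autoImplicit false

namespace Pool.Agent.Results.MP_fe5cb4_co.LongCircuitBonds

open H76FC H76TX H76TY H76TW Pool.Agent.W315.LB Pool.Agent.TH583.HB Pool.Agent.TH100.LV Run7.h818.HB

/-- Let `G` be an `r`-graph without Petersen minor (for instance a planar one) in which any linked pair
has at most 13 vertices.  Then `G` has `r` perfect matchings covering every edge exactly once. -/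
theorem result {r n m : ℕ} (ends : Fin m → Sym2 (Fin n)) (hG : MGraph r ends)
    (hP : ¬ PetMinor (SimpleGraph.fromEdgeSet (Set.range ends)))
    (hL : ∀ S T, Linked ends S T → S.card + T.card ≤ 13) : MCover 1 r ends :=
  mcover ends hG (Or.inl ⟨hP, hL⟩)

end Pool.Agent.Results.MP_fe5cb4_co.LongCircuitBonds
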